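import Pool.Agent.Helper79.GR.RN
import Pool.Agent.Helper79.GQ.LA

/-!
# Project PG (MP_13b103_pr): the limit shape of first passage percolation is not a polytope

Definitions (note 3123 of helper51).  Everything of project GR is used: `V d` lattice points, `n1`
their norm, `F d` real vectors, `nr` their norm, `rv`, `Edge d`, `T c x y` passage times, `Bd a b c`,
`Env P X ν a b`, `cf X ω`, `mm P X` the mean passage times, `tc` the time constant, `fl n x`,
`box x L`.

* `cut B R c`: the weights `c` on the finite set `R` of edges, the weight `B` off `R`;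
* `ea P X l x = E exp (- l T(0, x))`, `al P X l x = - log (ea P X l x) / l`, `nl P X l` its time
  constant (the annealed norms);
* `Yp φ v x = x - φ x • v` the transversal part, `gt φ v η x = φ x + ∑ i, η i * Yp φ v x i` the
  tilted functionals;
* `DD P X l φ v η = sup {gt φ v η x - nl P X l x | φ x = 1}`;
* `Fr a u φ v s s₀`: `v` is a vertex of the unit ball of `u` and `φ` is in the interior of its dual
  face, `s₀` is the size of the tilts;
* `tube φ v W L`: the edges near the origin both ends of which have transversal part at most `W`.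
-/

set_option autoImplicit false

namespace Pool.Agent.Helper79.PG

open MeasureTheory ProbabilityTheory Filter
open Pool.Agent.Helper79.GR Pool.Agent.Helper79.GQ

section

variable {d : ℕ}

open Classical in
/-- the weights `c` on `R`, the weight `B` off `R` -/
noncomputable def cut (B : ℝ) (R : Finset (Edge d)) (c : Edge d → ℝ) : Edge d → ℝ :=
  fun e => if e ∈ R then c e else B

theorem cut_bd {a b B : ℝ} {c : Edge d → ℝ} (h : Bd a b c) (hb : a ≤ b) (hB : b ≤ B)
    (R : Finset (Edge d)) : Bd a B (cut B R c) := by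
  refine ⟨h.1, fun e => ?_⟩
  unfold cut
  split_ifs
  · exact ⟨(h.2 e).1, (h.2 e).2.trans hB⟩
  · exact ⟨hb.trans hB, le_rfl⟩

/-- the transversal part of `x` -/
def Yp (φ : F d →ₗ[ℝ] ℝ) (v x : F d) : F d := x - φ x • v

/-- the tilted functional -/
def gt (φ : F d →ₗ[ℝ] ℝ) (v η x : F d) : ℝ := φ x + ∑ i, η i * Yp φ v x i

/-- `v` is a vertex of the unit ball of `u`, `φ` is in the interior of its dual face, `s₀` is the
size of the tilts -/
structure Fr (a : ℝ) (u : F d → ℝ) (φ : F d →ₗ[ℝ] ℝ) (v : F d) (s s₀ : ℝ) : Prop where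
  v1 : φ v = 1
  uv : u v = 1
  low : ∀ x, φ x + s * nr (Yp φ v x) ≤ u x
  s0pos : 0 < s₀
  s0s : 2 * s₀ ≤ s
  s0a : ∀ x, 2 * (s₀ * nr (Yp φ v x)) ≤ a * nr x

open Classical in
/-- the edges of `box 0 L` both ends of which have transversal part at most `W` -/
noncomputable def tube (φ : F d →ₗ[ℝ] ℝ) (v : F d) (W : ℝ) (L : ℕ) : Finset (Edge d) :=
  (box 0 L).filter fun e => ∀ x ∈ e.1, nr (Yp φ v (rv x)) ≤ W

/-- `u` is the maximum of finitely many linear functionals -/
def Poly (u : F d → ℝ) : Prop :=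
  ∃ S : Finset (F d →ₗ[ℝ] ℝ), ∀ x, (∀ ρ ∈ S, ρ x ≤ u x) ∧ ∃ ρ ∈ S, ρ x = u x

end

section

variable {Ω : Type*} [MeasurableSpace Ω] {d : ℕ}

/-- the exponential moment of the passage time -/
noncomputable def ea (P : Measure Ω) (X : Edge d → Ω → ℝ) (l : ℝ) (x : V d) : ℝ :=
  ∫ ω, Real.exp (-(l * T (cf X ω) 0 x)) ∂P

/-- the annealed passage time -/
noncomputable def al (P : Measure Ω) (X : Edge d → Ω → ℝ) (l : ℝ) (x : V d) : ℝ :=
  -(Real.log (ea P X l x) / l)

/-- the annealed norm -/
noncomputable def nl (P : Measure Ω) (X : Edge d → Ω → ℝ) (l : ℝ) (x : F d) : ℝ :=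
  tc (al P X l) x

/-- the largest difference of the tilted functional and the annealed norm at height `1` -/
noncomputable def DD (P : Measure Ω) (X : Edge d → Ω → ℝ) (l : ℝ) (φ : F d →ₗ[ℝ] ℝ) (v η : F d) :
    ℝ :=
  sSup ((fun x => gt φ v η x - nl P X l x) '' {x | φ x = 1})

/-- `D` at the tilt `η ± δ e_k` is at most `M` -/
def Nb (P : Measure Ω) (X : Edge d → Ω → ℝ) (l : ℝ) (φ : F d →ₗ[ℝ] ℝ) (v η : F d) (δ M : ℝ) :
    Prop :=
  ∀ k, DD P X l φ v (η + Pi.single k δ) ≤ M ∧ DD P X l φ v (η - Pi.single k δ) ≤ M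

end

end Pool.Agent.Helper79.PG
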