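import Pool.Agent.Helper33.PG.Herbst
import Pool.Agent.Helper51.NP.Defs

/-!
# Project PG: adapters between the two notations (cut off on a set or on a finite set of edges)
-/

set_option autoImplicit false

namespace Pool.Agent.Helper79.PG

open MeasureTheory ProbabilityTheory Filter
open Pool.Agent.Helper79.GR Pool.Agent.Helper79.GQ Pool.Agent.Helper51.NP

section det

variable {d : ℕ} {a b B : ℝ} {c : Edge d → ℝ}

theorem ncut_apply (S : Set (Edge d)) (B : ℝ) (c : Edge d → ℝ) (e : Edge d) [Decidable (e ∈ S)] :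
    Pool.Agent.Helper51.NP.cut S B c e = if e ∈ S then c e else B := by
  unfold Pool.Agent.Helper51.NP.cut Set.piecewise
  split_ifs <;> rfl

theorem ncut_bd (h : Bd a b c) (hab : a ≤ b) (hB : b ≤ B) (S : Set (Edge d)) :
    Bd a B (Pool.Agent.Helper51.NP.cut S B c) := by
  classical
  refine ⟨h.1, fun e => ?_⟩
  rw [ncut_apply]
  split_ifs
  · exact ⟨(h.2 e).1, (h.2 e).2.trans hB⟩
  · exact ⟨hab.trans hB, le_rfl⟩

open Classical in
/-- the passage time for the weights cut off outside of a set of edges depends only on finitely many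
edges -/
theorem T_ncut (h : Bd a b c) (hab : a ≤ b) (hB : b ≤ B) (S : Set (Edge d)) (x y : V d) (L : ℕ)
    (hL : B * n1 (y - x) ≤ a * L) :
    T (Pool.Agent.Helper51.NP.cut S B c) x y = T (cut B ((box x L).filter (fun e => e ∈ S)) c) x y := by
  refine T_congr (ncut_bd h hab hB S) (cut_bd h hab hB _) x y L hL fun e he => ?_
  rw [ncut_apply]
  unfold cut
  by_cases hS : e ∈ S
  · rw [if_pos hS, if_pos (Finset.mem_filter.2 ⟨he, hS⟩)]
  · rw [if_neg hS, if_neg (fun h' => hS (Finset.mem_filter.1 h').2)]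

/-- a finite set of edges -/
theorem ncut_coe (R : Finset (Edge d)) (B : ℝ) (c : Edge d → ℝ) :
    Pool.Agent.Helper51.NP.cut (R : Set (Edge d)) B c = cut B R c := by
  classical
  funext e
  rw [ncut_apply]
  unfold cut
  by_cases he : e ∈ R
  · rw [if_pos he, if_pos (Finset.mem_coe.2 he)]
  · rw [if_neg he, if_neg (fun h' => he (Finset.mem_coe.1 h'))]

theorem exists_L (ha : 0 < a) (B : ℝ) (x : V d) : ∃ L : ℕ, B * n1 x ≤ a * L := by
  obtain ⟨L, hL⟩ := exists_nat_ge (B * n1 x / a)
  refine ⟨L, ?_⟩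
  rw [div_le_iff₀ ha] at hL
  linarith

end det

variable {Ω : Type*} [MeasurableSpace Ω] {P : Measure Ω} {d : ℕ} {X : Edge d → Ω → ℝ}
  {ν : Measure ℝ} {a b B l : ℝ}

/-- in dimension `≥ 1` -/
theorem Env.le_of_edge (h : Env P X ν a b) (e : Edge d) : a ≤ b := by
  have := h.prob
  obtain ⟨ω⟩ := nonempty_of_isProbabilityMeasure P
  exact (h.bd e ω).1.trans (h.bd e ω).2

/-- either there are no edges and all passage times vanish, or `a ≤ b` -/
theorem Env.cases (h : Env P X ν a b) : a ≤ b ∨ IsEmpty (Edge d) := by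
  rcases isEmpty_or_nonempty (Edge d) with h1 | ⟨⟨e⟩⟩
  · exact Or.inr h1
  · exact Or.inl (Env.le_of_edge h e)

theorem eq_of_isEmpty (h : IsEmpty (Edge d)) (x y : V d) : x = y := by
  obtain ⟨w, hw, -⟩ := exists_walk x y
  cases w with
  | nil => exact hw
  | cons s w => exact (h.false (ed x s)).elim

theorem T_of_isEmpty (h : IsEmpty (Edge d)) (c : Edge d → ℝ) (x y : V d) : T c x y = 0 := by
  have hxy := eq_of_isEmpty h x y
  subst hxy
  have hc : Bd 1 1 c := ⟨one_pos, fun e => (h.false e).elim⟩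
  refine le_antisymm ?_ ?_
  · exact T_le_cost hc (show pos x [] = x from rfl)
  · have := le_T hc x x
    rwa [sub_self, n1_zero, mul_zero] at this

theorem herbst_set (h : Env P X ν a b) (hB : b ≤ B) (S : Set (Edge d)) (hl : 0 ≤ l) (x y : V d) :
    Zc P X S B l x y ≤
      Real.exp (-(l * mc P X S B x y) + hk a b B * l ^ 2 * n1 (y - x)) := by
  classical
  rcases Env.cases h with hab | he
  · obtain ⟨L, hL⟩ := exists_L (d := d) h.apos B (y - x)
    have e1 : ∀ ω, T (Pool.Agent.Helper51.NP.cut S B (cf X ω)) x y =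
        T (cut B ((box x L).filter (fun e => e ∈ S)) (cf X ω)) x y := fun ω =>
      T_ncut (h.cf_bd ω) hab hB S x y L hL
    have h1 := Pool.Agent.Helper33.PG.herbst_cut h hB ((box x L).filter (fun e => e ∈ S)) x y hl
    unfold Zc mc
    simp only [e1]
    exact h1
  · have := h.prob
    unfold Zc mc
    have hxy := eq_of_isEmpty he x y
    subst hxy
    simp [T_of_isEmpty he, n1_zero]

end Pool.Agent.Helper79.PG
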