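import Pool.Agent.Helper78.PG.Grad
import Pool.Agent.Helper79.GQ.AD
import Pool.Agent.Helper79.GQ.LH

/-!
# PG-Gr: a limit norm which is not the maximum of finitely many linear functionals has infinitely
many gradients, and `N` gradients give `N` pairwise disjoint rays (`GQ.theorem_disjoint`)
-/

set_option autoImplicit false

namespace Pool.Agent.Helper79.PH

open MeasureTheory ProbabilityTheory Pool.Agent.Helper79.GR Pool.Agent.Helper79.GQ
open Pool.Agent.Helper78.PG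

/-- the gauge is the maximum of finitely many linear functionals -/
def Poly {d : ℕ} (u : F d → ℝ) : Prop :=
  ∃ G : Finset (F d →L[ℝ] ℝ), (∀ ρ ∈ G, ∀ x, ρ x ≤ u x) ∧ ∀ x, ∃ ρ ∈ G, ρ x = u x

section

variable {d : ℕ} {a b : ℝ} {u : F d → ℝ}

theorem grads_infinite (h : Gau a b u) (hnp : ¬ Poly u) :
    {ρ : F d →L[ℝ] ℝ | ∃ w, HasFDerivAt u ρ w}.Infinite := by
  intro hfin
  refine hnp ⟨hfin.toFinset, fun ρ hρ x => ?_, fun x => ?_⟩
  · rw [Set.Finite.mem_toFinset] at hρ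
    obtain ⟨w, hw⟩ := hρ
    exact grad_le h hw x
  · obtain ⟨ρ, hρ, hx⟩ := touch_of_finite h hfin (fun w ρ hw => ⟨w, hw⟩) x
    exact ⟨ρ, (Set.Finite.mem_toFinset hfin).2 hρ, hx⟩

theorem grad_ne_zero (h : Gau a b u) (hd : 0 < d) {ρ : F d →L[ℝ] ℝ} {w : F d}
    (hρ : HasFDerivAt u ρ w) : w ≠ 0 := by
  rintro rfl
  have h1 : ∀ x, ρ x = u x := fun x => grad_eq_of_share h hρ (by rw [h.zero]; simp)
  have hx : (Pi.single ⟨0, hd⟩ 1 : F d) ≠ 0 := by
    intro h0
    have := congrFun h0 ⟨0, hd⟩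
    simp at this
  have h2 := h.pos hx
  have h3 := h.pos (neg_ne_zero.2 hx)
  rw [← h1] at h2 h3
  rw [map_neg] at h3
  linarith

theorem grad_smul (h : Gau a b u) {ρ : F d →L[ℝ] ℝ} {w : F d} (hρ : HasFDerivAt u ρ w) {c : ℝ}
    (hc : 0 < c) : HasFDerivAt u ρ (c • w) := by
  have e1 : c⁻¹ • (c • w) = w := by
    rw [smul_smul, inv_mul_cancel₀ hc.ne', one_smul]
  have h1 : HasFDerivAt u ρ (c⁻¹ • (c • w)) := by
    rw [e1]
    exact hρ
  have h2 : HasFDerivAt (fun y : F d => c⁻¹ • y) (c⁻¹ • ContinuousLinearMap.id ℝ (F d)) (c • w) :=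
    (hasFDerivAt_id (c • w)).const_smul c⁻¹
  have h3 := (h1.comp (c • w) h2).const_mul c
  have e2 : (fun y : F d => c * (u ∘ fun y : F d => c⁻¹ • y) y) = u := by
    funext y
    show c * u (c⁻¹ • y) = u y
    rw [h.smul _ (inv_pos.2 hc).le, ← mul_assoc, mul_inv_cancel₀ hc.ne', one_mul]
  have e3 : c • ρ.comp (c⁻¹ • ContinuousLinearMap.id ℝ (F d)) = ρ := by
    ext1 x
    simp [hc.ne']
  rw [e2, e3] at h3
  exact h3

theorem dir_of_infinite (h : Gau a b u) (hd : 0 < d)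
    (hinf : {ρ : F d →L[ℝ] ℝ | ∃ w, HasFDerivAt u ρ w}.Infinite) (N : ℕ) :
    ∃ (w : Fin N → F d) (ρ : Fin N → F d →L[ℝ] ℝ) (g : ℝ), Dir u w ρ g := by
  let f := hinf.natEmbedding
  have hf : ∀ n : ℕ, ∃ w, HasFDerivAt u (f n).1 w := fun n => (f n).2
  choose w hw using hf
  have hw0 : ∀ n, w n ≠ 0 := fun n => grad_ne_zero h hd (hw n)
  have hu0 : ∀ n, 0 < u (w n) := fun n => h.pos (hw0 n)
  have hone : ∀ n, u ((u (w n))⁻¹ • w n) = 1 := by
    intro n
    rw [h.smul _ (inv_pos.2 (hu0 n)).le, inv_mul_cancel₀ (hu0 n).ne']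
  have hder : ∀ n, HasFDerivAt u (f n).1 ((u (w n))⁻¹ • w n) := fun n =>
    grad_smul h (hw n) (inv_pos.2 (hu0 n))
  have hlt : ∀ m n, m ≠ n → (f m).1 ((u (w n))⁻¹ • w n) < 1 := by
    intro m n hmn
    refine lt_of_le_of_ne ?_ fun he => ?_
    · rw [← hone n]
      exact grad_le h (hw m) _
    · apply hmn
      apply f.injective
      apply Subtype.ext
      exact Helper78.PG.grad_unique (hder n) (grad_le h (hw m)) (he.trans (hone n).symm)
  obtain ⟨g, hg0, hg⟩ : ∃ g : ℝ, 0 < g ∧ ∀ i j : Fin N, i ≠ j →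
      (f i).1 ((u (w j))⁻¹ • w j) ≤ 1 - g := by
    rcases Nat.eq_zero_or_pos N with rfl | hN
    · exact ⟨1, one_pos, fun i => i.elim0⟩
    · have : Nonempty (Fin N × Fin N) := ⟨(⟨0, hN⟩, ⟨0, hN⟩)⟩
      obtain ⟨p, hp⟩ := Finite.exists_min fun p : Fin N × Fin N =>
        if p.1 = p.2 then (1 : ℝ) else 1 - (f p.1).1 ((u (w p.2))⁻¹ • w p.2)
      refine ⟨if p.1 = p.2 then (1 : ℝ) else 1 - (f p.1).1 ((u (w p.2))⁻¹ • w p.2), ?_, ?_⟩
      · split_ifs with hpp
        · exact one_pos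
        · have := hlt p.1 p.2 fun h => hpp (Fin.ext h)
          linarith
      · intro i j hij
        have := hp (i, j)
        simp only [if_neg hij] at this
        linarith
  exact ⟨fun i => (u (w i))⁻¹ • w i, fun i => (f i).1, g, fun i => hone i, fun i => hder i,
    fun i x => grad_le h (hw i) x, fun i => (grad_self h (hder i)).trans (hone i), hg0, hg⟩

end

section

variable {Ω : Type*} [MeasurableSpace Ω] {d : ℕ} {P : Measure Ω} {X : Edge d → Ω → ℝ}
  {ν : Measure ℝ} {a b : ℝ}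

/-- if the limit norm is not a maximum of finitely many linear functionals, then for every `N` there
are almost surely `N` pairwise disjoint geodesic rays -/
theorem disjoint_of_not_poly (h : Env P X ν a b) (hd : 0 < d) (hnp : ¬ Poly (tc (mm P X)))
    (N : ℕ) : ∀ᵐ ω ∂P, ∃ (x : Fin N → V d) (s : Fin N → ℕ → St d),
      (∀ i n, Geo (cf X ω) (x i) (pre (s i) n)) ∧
      ∀ i j, i ≠ j → ∀ k l, pos (x i) (pre (s i) k) ≠ pos (x j) (pre (s j) l) := by
  have hg := gau_tc (subM_mm h)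
  obtain ⟨w, ρ, g, hD⟩ := dir_of_infinite hg hd (grads_infinite hg hnp) N
  exact theorem_disjoint h hD

end

end Pool.Agent.Helper79.PH
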