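import Pool.Agent.Helper79.GR.FA

/-!
# PG-W: from the environment to the words of the frozen statement

Weights `X e ω = max a (min b (t e ω))`, almost surely equal to `t e ω` for all edges, with law `μ`
(compare `GQ/FE.lean`).  `rays_to_paths`.
-/

set_option autoImplicit false

namespace Pool.Agent.Helper79.PH

open MeasureTheory ProbabilityTheory Pool.Agent.Helper79.GR

/-- geodesic rays for all environments give the words of the frozen statement -/
theorem words (d : ℕ) (hR : ∀ (Ω : Type) (mΩ : MeasurableSpace Ω) (P : Measure Ω)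
    (X : Edge d → Ω → ℝ) (ν : Measure ℝ) (a b : ℝ), Env P X ν a b → (∀ x, ν {x} = 0) →
    ∀ᵐ ω ∂P, ∀ N : ℕ, ∃ s : Fin N → ℕ → St d, Function.Injective s ∧ ∀ i, Ray (cf X ω) (s i)) :
  ∀ (μ : Measure ℝ), IsProbabilityMeasure μ → NoAtoms μ →
  ∀ (a b : ℝ), 0 < a → μ (Set.Icc a b)ᶜ = 0 →
  ∀ (Ω : Type) (mΩ : MeasurableSpace Ω) (P : Measure Ω), IsProbabilityMeasure P →
  ∀ (t : Sym2 (Fin d → ℤ) → Ω → ℝ),
    (∀ e, Measurable (t e)) →
    iIndepFun
      (fun e : {e : Sym2 (Fin d → ℤ) //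
          ∃ x y : Fin d → ℤ, e = s(x, y) ∧ ∑ i, |x i - y i| = 1} => t e.1)
      P →
    (∀ x y : Fin d → ℤ, ∑ i, |x i - y i| = 1 →
      Measure.map (t s(x, y)) P = μ) →
    ∀ᵐ ω ∂P,
      Set.Infinite {γ : ℕ → (Fin d → ℤ) |
        γ 0 = 0 ∧ Function.Injective γ ∧
        (∀ k, ∑ i, |γ k i - γ (k + 1) i| = 1) ∧
        ∀ m n : ℕ, m ≤ n →
          ∀ (L : ℕ) (q : ℕ → (Fin d → ℤ)), q 0 = γ m → q L = γ n →
            (∀ k < L, ∑ i, |q k i - q (k + 1) i| = 1) →
            ∑ k ∈ Finset.range (n - m), t s(γ (m + k), γ (m + k + 1)) ω ≤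
              ∑ k ∈ Finset.range L, t s(q k, q (k + 1)) ω} := by
  intro μ hμ hna a b ha hsupp Ω mΩ P hP t htm hti htl
  have hae : ∀ᵐ x ∂μ, x ∈ Set.Icc a b := by
    rw [ae_iff]
    exact hsupp
  have hab : a ≤ b := by
    obtain ⟨x, hx⟩ := hae.exists
    exact hx.1.trans hx.2
  obtain ⟨g, hg⟩ : ∃ g : ℝ → ℝ, g = fun x => max a (min b x) := ⟨_, rfl⟩
  have hgm : Measurable g := by
    rw [hg]
    fun_prop
  have hgbd : ∀ x, a ≤ g x ∧ g x ≤ b := by
    intro x
    rw [hg]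
    exact ⟨le_max_left _ _, max_le hab (min_le_left _ _)⟩
  have hgae : ∀ᵐ x ∂μ, g x = x := by
    filter_upwards [hae] with x hx
    rw [hg]
    show max a (min b x) = x
    rw [min_eq_right hx.2, max_eq_right hx.1]
  have hgmap : μ.map g = μ := by
    rw [Measure.map_congr (g := id) hgae, Measure.map_id]
  have hlaw : ∀ e : Edge d, P.map (t e.1) = μ := by
    rintro ⟨e, x, y, rfl, hxy⟩
    exact htl x y hxy
  have henv : Env P (fun (e : Edge d) ω => g (t e.1 ω)) μ a b := by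
    refine ⟨hP, fun e => hgm.comp (htm e.1), ?_, ?_, ha, fun e ω => hgbd _⟩
    · exact hti.comp (fun _ => g) (fun _ => hgm)
    · intro e
      have h1 : P.map (fun ω => g (t e.1 ω)) = (P.map (t e.1)).map g := by
        rw [Measure.map_map hgm (htm e.1)]
        rfl
      rw [h1, hlaw e, hgmap]
  have hedge : ∀ᵐ ω ∂P, ∀ e : Edge d, g (t e.1 ω) = t e.1 ω := by
    rw [ae_all_iff]
    intro e
    have h1 : ∀ᵐ x ∂(P.map (t e.1)), g x = x := by
      rw [hlaw e]
      exact hgae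
    exact ae_of_ae_map (htm e.1).aemeasurable h1
  have hrays := hR Ω mΩ P _ μ a b henv (show NullSingletonClass μ from hna).measure_singleton
  filter_upwards [hrays, hedge] with ω hω hω2
  rw [← Set.encard_eq_top_iff, ENat.eq_top_iff_forall_ge]
  intro N
  obtain ⟨s, hs, hr⟩ := hω N
  exact rays_to_paths (henv.cf_bd ω) (fun e => t e ω) (fun e => (hω2 e).symm) N s hs hr

end Pool.Agent.Helper79.PH
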