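import Pool.Agent.Helper79.PG.NPoly
import Pool.Agent.Helper79.PG.W

/-!
# PG-Fin0: infinitely many geodesic rays from the origin, conditional on the join theorem
-/

set_option autoImplicit false

namespace Pool.Agent.Helper79.PH

open MeasureTheory ProbabilityTheory Pool.Agent.Helper79.GR Pool.Agent.Helper79.GQ

/-- the join theorem: `N` pairwise disjoint rays give `N` rays from the origin -/
def JoinT (d : ℕ) : Prop := ∀ (Ω : Type) (mΩ : MeasurableSpace Ω) (P : Measure Ω)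
    (X : Edge d → Ω → ℝ) (ν : Measure ℝ) (a b : ℝ), Env P X ν a b → (∀ x, ν {x} = 0) → ∀ N : ℕ,
    (∀ᵐ ω ∂P, ∃ (x : Fin N → V d) (s : Fin N → ℕ → St d),
      (∀ i n, Geo (cf X ω) (x i) (pre (s i) n)) ∧
      ∀ i j, i ≠ j → ∀ k l, pos (x i) (pre (s i) k) ≠ pos (x j) (pre (s j) l)) →
    ∀ᵐ ω ∂P, ∃ s : Fin N → ℕ → St d, Function.Injective s ∧ ∀ i, Ray (cf X ω) (s i)

theorem final_of {d : ℕ} (hd : 2 ≤ d) (hJ : JoinT d) :
  ∀ (μ : Measure ℝ), IsProbabilityMeasure μ → NoAtoms μ →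
  ∀ (a b : ℝ), 0 < a → μ (Set.Icc a b)ᶜ = 0 →
  ∀ (Ω : Type) (mΩ : MeasurableSpace Ω) (P : Measure Ω), IsProbabilityMeasure P →
  ∀ (t : Sym2 (Fin d → ℤ) → Ω → ℝ),
    (∀ e, Measurable (t e)) →
    iIndepFun
      (fun e : {e : Sym2 (Fin d → ℤ) //
          ∃ x y : Fin d → ℤ, e = s(x, y) ∧ ∑ i, |x i - y i| = 1} => t e.1)
      P →
    (∀ x y : Fin d → ℤ, ∑ i, |x i - y i| = 1 →
      Measure.map (t s(x, y)) P = μ) →
    ∀ᵐ ω ∂P,
      Set.Infinite {γ : ℕ → (Fin d → ℤ) |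
        γ 0 = 0 ∧ Function.Injective γ ∧
        (∀ k, ∑ i, |γ k i - γ (k + 1) i| = 1) ∧
        ∀ m n : ℕ, m ≤ n →
          ∀ (L : ℕ) (q : ℕ → (Fin d → ℤ)), q 0 = γ m → q L = γ n →
            (∀ k < L, ∑ i, |q k i - q (k + 1) i| = 1) →
            ∑ k ∈ Finset.range (n - m), t s(γ (m + k), γ (m + k + 1)) ω ≤
              ∑ k ∈ Finset.range L, t s(q k, q (k + 1)) ω} := by
  refine words d fun Ω mΩ P X ν a b h hν => ?_
  rw [ae_all_iff]
  intro N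
  exact hJ Ω mΩ P X ν a b h hν N (disjoint_rays hd h hν N)

end Pool.Agent.Helper79.PH
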