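import Pool.Agent.Helper51.NP.H3
import Pool.Agent.Helper79.PG.Gr

/-!
# PG-NPoly: the limit norm is not the maximum of finitely many linear functionals (`NP.core`); for
every `N` there are almost surely `N` pairwise disjoint geodesic rays
-/

set_option autoImplicit false

namespace Pool.Agent.Helper79.PH

open MeasureTheory ProbabilityTheory Pool.Agent.Helper79.GR Pool.Agent.Helper79.GQ

variable {Ω : Type*} [MeasurableSpace Ω] {d : ℕ} {P : Measure Ω} {X : Edge d → Ω → ℝ}
  {ν : Measure ℝ} {a b : ℝ}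

theorem not_poly (hd : 2 ≤ d) (h : Env P X ν a b) (hν : ∀ x, ν {x} = 0) :
    ¬ Poly (tc (mm P X)) := fun ⟨G, hle, hcov⟩ => Helper51.NP.core hd h hν G hle hcov

theorem disjoint_rays (hd : 2 ≤ d) (h : Env P X ν a b) (hν : ∀ x, ν {x} = 0) (N : ℕ) :
    ∀ᵐ ω ∂P, ∃ (x : Fin N → V d) (s : Fin N → ℕ → St d),
      (∀ i n, Geo (cf X ω) (x i) (pre (s i) n)) ∧
      ∀ i j, i ≠ j → ∀ k l, pos (x i) (pre (s i) k) ≠ pos (x j) (pre (s j) l) :=
  disjoint_of_not_poly h (by omega) (not_poly hd h hν) N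

end Pool.Agent.Helper79.PH
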